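import Pool.Agent.helper24.TG.S2

set_option linter.all false
set_option autoImplicit false

/-!
# Module HP3 (MP_ce98d8_co): a lifted line and the points collinear with a point off the line
-/

namespace Pool.Agent.helper24.TG

open Finset Classical
open Pool.Agent.helper11.Tight (nb eo mem_nb)

theorem HP3_c (p : Par) : 10 ^ 6 ≤ p.c := by
  have h1 := p.hLog
  have h2 := p.hLam
  nlinarith

theorem HP3_cLam (p : Par) : 12 * p.Lam ≤ p.c := by
  have h1 := p.hLog
  nlinarith [Nat.zero_le p.Lam]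

theorem HP3_q (p : Par) : p.c ^ 12 ≤ p.q := by
  have h1 := p.N4
  have h2 := p.hLa
  have h3 : 1 ≤ p.c := le_trans (by norm_num) (HP3_c p)
  calc p.c ^ 12 ≤ p.c ^ (p.kT + 12) := Nat.pow_le_pow_right h3 (by omega)
    _ ≤ p.La * p.c ^ (p.kT + 12) := Nat.le_mul_of_pos_left _ h2
    _ ≤ p.q := h1

theorem HP3_C (p : Par) : 1 ≤ p.C := by
  rcases Nat.eq_zero_or_pos p.C with h | h
  · exfalso
    have h1 := p.hC1
    rw [h, zero_mul] at h1
    have h2 : 0 < p.c := lt_of_lt_of_le (by norm_num) (HP3_c p)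
    have h3 : 0 < p.q := lt_of_lt_of_le (pow_pos h2 12) (HP3_q p)
    have h4 : 0 < p.d := lt_of_lt_of_le (by norm_num) p.hd
    have : 0 < p.c ^ 3 * p.q * p.d := by positivity
    omega
  · exact h

theorem HP3_X (p : Par) : (p.q ^ 2 + p.q + 1) * p.B ≤ 2 ^ p.Lam := by
  have h1 := p.s1
  have h2 := HP3_C p
  have h3 : 0 < p.c := lt_of_lt_of_le (by norm_num) (HP3_c p)
  have h4 : 1 ≤ p.q := lt_of_lt_of_le (pow_pos h3 12) (HP3_q p)
  calc (p.q ^ 2 + p.q + 1) * p.B ≤ (4 * p.q ^ 2) * p.B := by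
        apply Nat.mul_le_mul_right
        nlinarith
    _ = 4 * p.B * p.q ^ 2 * 1 := by ring
    _ ≤ 4 * p.B * p.q ^ 2 * p.C := Nat.mul_le_mul_left _ h2
    _ ≤ _ := h1

theorem HP3_num (p : Par) :
    (p.q + 1).choose (p.q / p.c ^ 6 + 1) * 2 ^ (2 * p.Lam + 10 * p.Lam) ≤
      (p.B - 40) ^ ((p.q / p.c ^ 6 + 1 - 9) / 18) := by
  set m0 := p.q / p.c ^ 6 + 1 with hm0
  set m := (m0 - 9) / 18 with hm
  have hc := HP3_c p
  have hc0 : 0 < p.c := lt_of_lt_of_le (by norm_num) hc
  have hc6 : 0 < p.c ^ 6 := pow_pos hc0 6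
  have hq := HP3_q p
  have hq1 : 1 ≤ p.q := lt_of_lt_of_le (pow_pos hc0 12) hq
  have hlt : p.q < p.c ^ 6 * m0 := Nat.lt_mul_div_succ p.q hc6
  have hm0p : 0 < m0 := Nat.succ_pos _
  -- the binomial coefficient
  have e1 : (p.q + 1).choose m0 ≤ p.c ^ (7 * m0) := by
    have h1 := choose_mul_pow_le (p.q + 1) m0
    have h2 : (3 * (p.q + 1)) ^ m0 ≤ (p.c ^ 7) ^ m0 * m0 ^ m0 := by
      rw [← mul_pow]
      apply Nat.pow_le_pow_left
      calc 3 * (p.q + 1) ≤ 6 * (p.c ^ 6 * m0) := by omega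
        _ ≤ p.c * (p.c ^ 6 * m0) := Nat.mul_le_mul_right _ (le_trans (by norm_num) hc)
        _ = p.c ^ 7 * m0 := by ring
    have h3 := h1.trans h2
    have h4 := Nat.le_of_mul_le_mul_right h3 (pow_pos hm0p m0)
    rwa [← pow_mul] at h4
  -- `m ≥ c`
  have e2 : p.c ^ 6 ≤ m0 := by
    have : p.c ^ 6 ≤ p.q / p.c ^ 6 := by
      rw [Nat.le_div_iff_mul_le hc6, ← pow_add]
      exact hq
    omega
  have e3 : 18 * p.c + 9 ≤ p.c ^ 6 := by
    calc 18 * p.c + 9 ≤ 27 * p.c := by omega
      _ ≤ p.c ^ 5 * p.c := by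
        apply Nat.mul_le_mul_right
        calc 27 ≤ p.c := le_trans (by norm_num) hc
          _ = p.c ^ 1 := (pow_one _).symm
          _ ≤ p.c ^ 5 := Nat.pow_le_pow_right hc0 (by norm_num)
      _ = _ := by ring
  have e4 : p.c ≤ m := by omega
  have e5 : m0 ≤ 18 * m + 26 := by omega
  have e6 : p.c ^ 199 ≤ p.B - 40 := by
    have h1 := p.N7
    have h2 : p.c ^ 199 + 40 ≤ p.c ^ 200 := by
      have : 1 ≤ p.c ^ 199 := Nat.one_le_pow _ _ hc0
      calc p.c ^ 199 + 40 ≤ 41 * p.c ^ 199 := by omega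
        _ ≤ p.c * p.c ^ 199 := Nat.mul_le_mul_right _ (le_trans (by norm_num) hc)
        _ = p.c ^ 200 := by ring
    omega
  calc (p.q + 1).choose m0 * 2 ^ (2 * p.Lam + 10 * p.Lam)
      ≤ p.c ^ (7 * m0) * p.c ^ p.c := by
        apply Nat.mul_le_mul e1
        calc 2 ^ (2 * p.Lam + 10 * p.Lam) ≤ p.c ^ (2 * p.Lam + 10 * p.Lam) :=
              Nat.pow_le_pow_left (le_trans (by norm_num) hc) _
          _ ≤ p.c ^ p.c := Nat.pow_le_pow_right hc0 (by have := HP3_cLam p; omega)
    _ = p.c ^ (7 * m0 + p.c) := (pow_add _ _ _).symm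
    _ ≤ p.c ^ (199 * m) := Nat.pow_le_pow_right hc0 (by omega)
    _ = (p.c ^ 199) ^ m := pow_mul _ _ _
    _ ≤ (p.B - 40) ^ m := Nat.pow_le_pow_left e6 _

theorem HP3_osup_mem {O : Type} [DecidableEq O] {a b c : O} (h1 : a ≠ b) (h2 : a ≠ c) :
    a ∈ osup a b c := by
  unfold osup
  rw [Finset.mem_symmDiff]
  left
  refine ⟨Finset.mem_singleton_self a, ?_⟩
  rw [Finset.mem_symmDiff]
  simp [h1, h2]

theorem HP3_osup_card {O : Type} [DecidableEq O] (a b c : O) : (osup a b c).card ≤ 3 := by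
  have : osup a b c ⊆ {a, b, c} := by
    intro x hx
    unfold osup at hx
    rw [Finset.mem_symmDiff, Finset.mem_symmDiff] at hx
    simp only [Finset.mem_singleton] at hx
    simp only [Finset.mem_insert, Finset.mem_singleton]
    tauto
  exact (Finset.card_le_card this).trans Finset.card_le_three

section
variable {P O A : Type} [Fintype P] [DecidableEq P] [Fintype O] [DecidableEq O]
  [Fintype A] [DecidableEq A] [AddCommGroup A]

/-- a point on the base line of `L`, not on `L`: no point of `L` is collinear with it -/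
theorem HP3_inc {q : ℕ} (H : Host P O q) (v : O → A) (L z : P × A) (hz : H.inc z.1 L.1)
    (hn : ¬ onL H v L z) : lin H v L ∩ Gam H v z = ∅ := by
  ext x
  simp only [Finset.mem_inter, mem_lin, mem_Gam, Finset.notMem_empty, iff_false]
  rintro ⟨h1, hne, M, h2, h3⟩
  have e : L.1 = M.1 := H.uniq z.1 x.1 L.1 M.1 hne hz h1.1 h2.1 h3.1
  exact hn (onL_inj' h1 h3 e ▸ h2)

theorem HP3_pair (vs3 : VS3_stmt) (p : Par) (H : Host P O p.q) (hA : Fintype.card A = p.B)
    (h2 : ∀ a : A, a + a = 0) (L z : P × A) :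
    ((Om A H.TT).filter (fun v => ¬ (¬ onL H v L z →
      p.c ^ 6 * (lin H v L ∩ Gam H v z).card ≤ p.q))).card *
      2 ^ (2 * p.Lam + 10 * p.Lam) ≤ (Om A H.TT).card := by
  by_cases hz : H.inc z.1 L.1
  · have : (Om A H.TT).filter (fun v => ¬ (¬ onL H v L z →
      p.c ^ 6 * (lin H v L ∩ Gam H v z).card ≤ p.q)) = ∅ := by
      rw [Finset.filter_eq_empty_iff]
      intro v _
      rw [not_not]
      intro hn
      rw [HP3_inc H v L z hz hn]
      simp
    rw [this]
    simp
  · -- the lines through `z`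
    have hj : ∀ s : P, ∃ m : P, s ≠ z.1 → H.inc s m ∧ H.inc z.1 m := by
      intro s
      by_cases h : s = z.1
      · exact ⟨s, fun h' => absurd h h'⟩
      · obtain ⟨m, h1, h3⟩ := H.join s z.1 h
        exact ⟨m, fun _ => ⟨h1, h3⟩⟩
    choose mm hmm using hj
    have hsz : ∀ s, H.inc s L.1 → s ≠ z.1 := fun s hs h => hz (h ▸ hs)
    have hml : ∀ s, H.inc s L.1 → mm s ≠ L.1 := by
      intro s hs h
      exact hz (h ▸ (hmm s (hsz s hs)).2)
    have hminj : ∀ s, H.inc s L.1 → ∀ s', H.inc s' L.1 → mm s = mm s' → s = s' := by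
      intro s hs s' hs' h
      by_contra hne
      refine hml s hs ?_
      exact H.uniq s s' (mm s) L.1 hne (hmm s (hsz s hs)).1
        (h ▸ (hmm s' (hsz s' hs')).1) hs hs'
    set pts : Finset P := Finset.univ.filter (fun x => H.inc x L.1) with hpts
    have hmem : ∀ s, s ∈ pts ↔ H.inc s L.1 := by intro s; simp [hpts]
    have hptc : pts.card = p.q + 1 := H.card_line L.1
    -- exceptional points
    set E1 : Finset P := pts.filter (fun s => H.orb s (mm s) = H.orb s L.1) with hE1
    set E2 : Finset P := pts.filter (fun s => H.orb s (mm s) = H.orb z.1 (mm s)) with hE2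
    have hE1c : E1.card ≤ 6 := by
      refine le_trans (Finset.card_le_card ?_) (H.fixF L.1)
      intro s hs
      rw [hE1, Finset.mem_filter, hmem] at hs
      rw [Finset.mem_filter]
      exact ⟨Finset.mem_univ _, hs.1, mm s, hml s hs.1, (hmm s (hsz s hs.1)).1, hs.2⟩
    have hE2c : E2.card ≤ 3 := by
      refine le_trans ?_ H.card_fixL
      refine Finset.card_le_card_of_injOn mm ?_ ?_
      · intro s hs
        rw [Finset.mem_coe, hE2, Finset.mem_filter, hmem] at hs
        rw [Finset.mem_coe]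
        by_contra hn
        have := H.fixL_spec (mm s) hn s z.1 (hmm s (hsz s hs.1)).1 (hmm s (hsz s hs.1)).2 hs.2
        exact hsz s hs.1 this
      · intro s hs s' hs' h
        rw [Finset.mem_coe, hE2, Finset.mem_filter, hmem] at hs hs'
        exact hminj s hs.1 s' hs'.1 h
    set m0 := p.q / p.c ^ 6 + 1 with hm0
    set m := (m0 - 9) / 18 with hm
    have hc0 : 0 < p.c := lt_of_lt_of_le (by norm_num) (HP3_c p)
    have hB40 : 40 < p.B := by
      have h1 := p.N7
      have h3 : p.c ^ 1 ≤ p.c ^ 200 := Nat.pow_le_pow_right hc0 (by norm_num)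
      have h4 := HP3_c p
      rw [pow_one] at h3
      omega
    -- probability that a given set of points is collinear with `z`
    have key : ∀ Y ∈ pts.powersetCard m0,
        ((Om A H.TT).filter (fun v => ∀ s ∈ Y,
          v (H.orb s (mm s)) + v (H.orb s L.1) + v (H.orb z.1 (mm s)) = L.2 + z.2)).card *
          (p.B - 40) ^ m ≤ (Om A H.TT).card := by
      intro Y hY
      rw [Finset.mem_powersetCard] at hY
      have hF1 : m0 - 9 ≤ (Y \ (E1 ∪ E2)).card := by
        have h1 := Finset.le_card_sdiff (E1 ∪ E2) Y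
        have h3 := Finset.card_union_le E1 E2
        omega
      have h3 := vs3 O A H.TT 40 H.cs (by rw [hA]; exact hB40) P (Y \ (E1 ∪ E2))
        (fun s => H.orb s (mm s))
        (fun s => osup (H.orb s (mm s)) (H.orb s L.1) (H.orb z.1 (mm s)))
        (fun _ => L.2 + z.2) m ?_ ?_ ?_ (by omega)
      · rw [hA] at h3
        refine le_trans (Nat.mul_le_mul_right _ (Finset.card_le_card ?_)) h3
        intro v hv
        simp only [Finset.mem_filter] at hv ⊢
        refine ⟨hv.1, fun s hs => ?_⟩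
        rw [sum_osup h2]
        exact hv.2 s (Finset.mem_sdiff.1 hs).1
      · intro s hs
        rw [Finset.mem_sdiff, Finset.mem_union, not_or] at hs
        have hsp := hY.1 hs.1
        refine HP3_osup_mem (fun h => hs.2.1 ?_) (fun h => hs.2.2 ?_)
        · rw [hE1, Finset.mem_filter]
          exact ⟨hsp, h⟩
        · rw [hE2, Finset.mem_filter]
          exact ⟨hsp, h⟩
      · intro s _
        exact HP3_osup_card _ _ _
      · intro o
        refine le_trans ?_ (H.orb_le o)
        refine Finset.card_le_card_of_injOn (fun s => (s, mm s)) ?_ ?_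
        · intro s hs
          rw [Finset.mem_coe, Finset.mem_filter, Finset.mem_sdiff] at hs
          have hsp := (hmem s).1 (hY.1 hs.1.1)
          rw [Finset.mem_coe, Finset.mem_filter]
          exact ⟨Finset.mem_univ _, (hmm s (hsz s hsp)).1, hs.2⟩
        · intro s _ s' _ h
          exact (Prod.ext_iff.1 h).1
    -- the points of `L` collinear with `z`
    have hsub : (Om A H.TT).filter (fun v => ¬ (¬ onL H v L z →
        p.c ^ 6 * (lin H v L ∩ Gam H v z).card ≤ p.q)) ⊆
        (pts.powersetCard m0).biUnion (fun Y => (Om A H.TT).filter (fun v => ∀ s ∈ Y,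
          v (H.orb s (mm s)) + v (H.orb s L.1) + v (H.orb z.1 (mm s)) = L.2 + z.2)) := by
      intro v hv
      rw [Finset.mem_filter] at hv
      obtain ⟨hv1, hv2⟩ := hv
      have hv3 : p.q < p.c ^ 6 * (lin H v L ∩ Gam H v z).card := by
        by_contra h
        exact hv2 (fun _ => not_lt.1 h)
      set S : Finset P := pts.filter (fun s =>
        v (H.orb s (mm s)) + v (H.orb s L.1) + v (H.orb z.1 (mm s)) = L.2 + z.2) with hS
      have hcard : (lin H v L ∩ Gam H v z).card ≤ S.card := by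
        refine Finset.card_le_card_of_injOn (fun x => x.1) ?_ ?_
        · intro x hx
          rw [Finset.mem_coe, Finset.mem_inter, mem_lin, mem_Gam] at hx
          obtain ⟨h1, h3⟩ := hx
          have hxz := hsz x.1 h1.1
          have h4 := (col_iff_eq_two h2 h3.1 (hmm x.1 hxz).2 (hmm x.1 hxz).1).1 h3
          rw [Finset.mem_coe, hS, Finset.mem_filter]
          refine ⟨(hmem _).2 h1.1, ?_⟩
          have h5 := h1.2
          rw [← h5]
          calc v (H.orb x.1 (mm x.1)) + (x.2 + L.2) + v (H.orb z.1 (mm x.1))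
              = (v (H.orb z.1 (mm x.1)) + v (H.orb x.1 (mm x.1))) + (x.2 + L.2) := by abel
            _ = (z.2 + x.2) + (x.2 + L.2) := by rw [h4]
            _ = (x.2 + x.2) + (L.2 + z.2) := by abel
            _ = L.2 + z.2 := by rw [h2, zero_add]
        · intro x hx y hy h
          rw [Finset.mem_coe, Finset.mem_inter, mem_lin] at hx hy
          exact onL_inj hx.1 hy.1 h
      have hm0S : m0 ≤ S.card := by
        have : p.q / p.c ^ 6 < S.card := by
          apply Nat.div_lt_of_lt_mul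
          exact lt_of_lt_of_le hv3 (Nat.mul_le_mul_left _ hcard)
        omega
      obtain ⟨Y, hY1, hY2⟩ := Finset.exists_subset_card_eq hm0S
      rw [Finset.mem_biUnion]
      refine ⟨Y, Finset.mem_powersetCard.2 ⟨hY1.trans (Finset.filter_subset _ _), hY2⟩, ?_⟩
      rw [Finset.mem_filter]
      exact ⟨hv1, fun s hs => (Finset.mem_filter.1 (hY1 hs)).2⟩
    have hfin : ((Om A H.TT).filter (fun v => ¬ (¬ onL H v L z →
        p.c ^ 6 * (lin H v L ∩ Gam H v z).card ≤ p.q))).card * (p.B - 40) ^ m ≤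
        (p.q + 1).choose m0 * (Om A H.TT).card := by
      calc _ ≤ (∑ Y ∈ pts.powersetCard m0, ((Om A H.TT).filter (fun v => ∀ s ∈ Y,
          v (H.orb s (mm s)) + v (H.orb s L.1) + v (H.orb z.1 (mm s)) = L.2 + z.2)).card) *
            (p.B - 40) ^ m :=
            Nat.mul_le_mul_right _ ((Finset.card_le_card hsub).trans Finset.card_biUnion_le)
        _ = ∑ Y ∈ pts.powersetCard m0, ((Om A H.TT).filter (fun v => ∀ s ∈ Y,
          v (H.orb s (mm s)) + v (H.orb s L.1) + v (H.orb z.1 (mm s)) = L.2 + z.2)).card *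
            (p.B - 40) ^ m := by rw [Finset.sum_mul]
        _ ≤ ∑ Y ∈ pts.powersetCard m0, (Om A H.TT).card := Finset.sum_le_sum key
        _ = (p.q + 1).choose m0 * (Om A H.TT).card := by
          rw [Finset.sum_const, Finset.card_powersetCard, hptc, smul_eq_mul]
    have hnum := HP3_num p
    have hch : 0 < (p.q + 1).choose m0 := by
      apply Nat.choose_pos
      have := Nat.div_le_self p.q (p.c ^ 6)
      omega
    have h5 : (p.q + 1).choose m0 * (((Om A H.TT).filter (fun v => ¬ (¬ onL H v L z →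
        p.c ^ 6 * (lin H v L ∩ Gam H v z).card ≤ p.q))).card *
        2 ^ (2 * p.Lam + 10 * p.Lam)) ≤ (p.q + 1).choose m0 * (Om A H.TT).card := by
      refine le_trans ?_ hfin
      calc _ = ((Om A H.TT).filter (fun v => ¬ (¬ onL H v L z →
        p.c ^ 6 * (lin H v L ∩ Gam H v z).card ≤ p.q))).card *
          ((p.q + 1).choose m0 * 2 ^ (2 * p.Lam + 10 * p.Lam)) := by ring
        _ ≤ _ := Nat.mul_le_mul_left _ hnum
    exact Nat.le_of_mul_le_mul_left h5 hch

end

theorem HP3 (vs3 : VS3_stmt) : HP3_stmt := by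
  intro p P O A _ _ _ _ _ _ _ H hA h2
  have hI : (Finset.univ : Finset ((P × A) × (P × A))).card ≤ 2 ^ (2 * p.Lam) := by
    rw [Finset.card_univ, Fintype.card_prod, Fintype.card_prod, H.card_P, hA, two_mul, pow_add]
    exact Nat.mul_le_mul (HP3_X p) (HP3_X p)
  have h3 := ub (Om A H.TT) (Finset.univ : Finset ((P × A) × (P × A)))
    (fun i v => ¬ (¬ onL H v i.1 i.2 →
      p.c ^ 6 * (lin H v i.1 ∩ Gam H v i.2).card ≤ p.q)) (2 * p.Lam) (10 * p.Lam) hI
    (fun i _ => HP3_pair vs3 p H hA h2 i.1 i.2)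
  refine le_trans (Nat.mul_le_mul_right _ (Finset.card_le_card ?_)) h3
  intro v hv
  rw [Finset.mem_filter] at hv ⊢
  refine ⟨hv.1, ?_⟩
  by_contra hn
  push Not at hn
  exact hv.2 (fun L z h => hn (L, z) (Finset.mem_univ _) h)

end Pool.Agent.helper24.TG
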