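import Pool.Agent.helper24.TG.S3

set_option linter.all false
set_option autoImplicit false

/-!
# Module RG1y (MP_ce98d8_co): probability that a labelling meets an allowed set in `k` types
-/

namespace Pool.Agent.helper24.TG

open Finset Classical
open Pool.Agent.helper11.Tight (nb eo mem_nb)

theorem RG1y (lb1 : LB1_stmt) : RG1y_stmt := by
  intro p P O A V _ _ _ _ _ _ _ _ _ H v0 hV G k hG hk
  set D : Finset (Finset ((P × A) × V)) := (G.powersetCard k).filter
    (fun Y => ∀ e ∈ Y, ∀ e' ∈ Y, e.1.1 = e'.1.1 → e = e') with hD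
  set R : ℝ := (Psi p H v0).card * Real.exp (2 * (k : ℝ) ^ 2 / (p.q : ℝ) ^ 2) with hR
  have hR0 : 0 ≤ R := by positivity
  have key : ∀ Y ∈ D,
      (((Psi p H v0).filter (fun φ => ∀ e ∈ Y, φ e.1.1 = e.2)).card : ℝ) * (p.N : ℝ) ^ k ≤
        R := by
    intro Y hY
    rw [hD, Finset.mem_filter, Finset.mem_powersetCard] at hY
    obtain ⟨⟨hYG, hYk⟩, hYi⟩ := hY
    have hg : ∃ g : P → V, ∀ e ∈ Y, g e.1.1 = e.2 := by
      refine ⟨fun t => if h : ∃ e ∈ Y, e.1.1 = t then h.choose.2 else v0, ?_⟩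
      intro e he
      have h : ∃ e' ∈ Y, e'.1.1 = e.1.1 := ⟨e, he, rfl⟩
      simp only [dif_pos h]
      have h1 := h.choose_spec
      have : h.choose = e := hYi _ h1.1 _ he h1.2
      rw [this]
    obtain ⟨g, hg⟩ := hg
    have hJ : (Y.image (fun e => e.1.1)).card = k := by
      rw [Finset.card_image_of_injOn, hYk]
      intro e he e' he' h
      exact hYi e he e' he' h
    have h1 := lb1 p P O V H v0 hV g (Y.image (fun e => e.1.1)) (by
      intro t ht
      rw [Finset.mem_image] at ht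
      obtain ⟨e, he, rfl⟩ := ht
      have := hG e (hYG he)
      rw [mem_XA] at this
      rw [mem_PA]
      exact this) (by rw [hJ]; exact hk)
    rw [hJ] at h1
    refine le_trans (mul_le_mul_of_nonneg_right ?_ (by positivity)) h1
    have : ((Psi p H v0).filter (fun φ => ∀ e ∈ Y, φ e.1.1 = e.2)) ⊆
        ((Psi p H v0).filter (fun φ => ∀ t ∈ Y.image (fun e => e.1.1), φ t = g t)) := by
      intro φ hφ
      simp only [Finset.mem_filter] at hφ ⊢
      refine ⟨hφ.1, fun t ht => ?_⟩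
      rw [Finset.mem_image] at ht
      obtain ⟨e, he, rfl⟩ := ht
      rw [hφ.2 e he, hg e he]
    exact_mod_cast Finset.card_le_card this
  have hsub : ((Psi p H v0).filter (fun φ => ∃ Y : Finset (P × A),
      (∀ x ∈ Y, ∀ y ∈ Y, x.1 = y.1 → x = y) ∧ Y.card = k ∧ ∀ x ∈ Y, (x, φ x.1) ∈ G)) ⊆
      D.biUnion (fun Y => (Psi p H v0).filter (fun φ => ∀ e ∈ Y, φ e.1.1 = e.2)) := by
    intro φ hφ
    rw [Finset.mem_filter] at hφ
    obtain ⟨h0, Y, h1, h2, h3⟩ := hφ
    rw [Finset.mem_biUnion]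
    refine ⟨Y.image (fun x => (x, φ x.1)), ?_, ?_⟩
    · rw [hD, Finset.mem_filter, Finset.mem_powersetCard]
      refine ⟨⟨?_, ?_⟩, ?_⟩
      · intro e he
        rw [Finset.mem_image] at he
        obtain ⟨x, hx, rfl⟩ := he
        exact h3 x hx
      · rw [Finset.card_image_of_injective, h2]
        intro x y hxy
        exact (Prod.ext_iff.1 hxy).1
      · intro e he e' he' hee
        rw [Finset.mem_image] at he he'
        obtain ⟨x, hx, rfl⟩ := he
        obtain ⟨y, hy, rfl⟩ := he'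
        have : x = y := h1 x hx y hy hee
        rw [this]
    · simp only [Finset.mem_filter]
      refine ⟨h0, fun e he => ?_⟩
      rw [Finset.mem_image] at he
      obtain ⟨x, hx, rfl⟩ := he
      rfl
  have hcard : (((Psi p H v0).filter (fun φ => ∃ Y : Finset (P × A),
      (∀ x ∈ Y, ∀ y ∈ Y, x.1 = y.1 → x = y) ∧ Y.card = k ∧ ∀ x ∈ Y, (x, φ x.1) ∈ G)).card : ℝ) ≤
      ∑ Y ∈ D, (((Psi p H v0).filter (fun φ => ∀ e ∈ Y, φ e.1.1 = e.2)).card : ℝ) := by
    exact_mod_cast (Finset.card_le_card hsub).trans Finset.card_biUnion_le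
  calc _ ≤ (∑ Y ∈ D, (((Psi p H v0).filter (fun φ => ∀ e ∈ Y, φ e.1.1 = e.2)).card : ℝ)) *
        (p.N : ℝ) ^ k := mul_le_mul_of_nonneg_right hcard (by positivity)
    _ = ∑ Y ∈ D, (((Psi p H v0).filter (fun φ => ∀ e ∈ Y, φ e.1.1 = e.2)).card : ℝ) *
        (p.N : ℝ) ^ k := by rw [Finset.sum_mul]
    _ ≤ ∑ Y ∈ D, R := Finset.sum_le_sum key
    _ = D.card * R := by rw [Finset.sum_const, nsmul_eq_mul]
    _ ≤ (G.card).choose k * R := by
      refine mul_le_mul_of_nonneg_right ?_ hR0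
      have h1 : D.card ≤ (G.powersetCard k).card := Finset.card_filter_le _ _
      rw [Finset.card_powersetCard] at h1
      exact_mod_cast h1
    _ = _ := by rw [hR]; ring

end Pool.Agent.helper24.TG
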